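import Pool.Agent.W956.KF.Defs

set_option autoImplicit false

/-!
# Definitions: the number of products, and growth up to powers of the logarithm
-/

namespace Pool.Agent.K9h26.NL

open Pool.Agent.H522R2 Pool.Agent.W956.KF

/-- The least number of nonscalar multiplication gates (multiplication gates neither of whose
inputs computes a constant) of a circuit over `F` which computes the `m ^ 2` entries of the product
of two generic `m × m` matrices; `+` gates and multiplications by constants are free. -/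
noncomputable def prodMM (F : Type) [Field F] (m : ℕ) : ℕ :=
  sInf {s | ∃ C : Circuit F ((Fin m × Fin m) ⊕ (Fin m × Fin m)), ComputesMM C ∧
    C.nonscalarCount = s}

/-- For some constants `C` and `κ`, every interval `[x, x ^ κ]` with sufficiently large left end
contains a natural number `a` with `f a ≤ C * a ^ τ`. (This holds in particular if
`f a ≤ C * a ^ τ` for all `a ≥ 1`.) -/
def OftenLE (f : ℕ → ℕ) (τ : ℝ) : Prop :=
  ∃ C κ : ℝ, ∃ x₀ : ℕ, ∀ x : ℕ, x₀ ≤ x → ∃ a : ℕ, x ≤ a ∧ (a : ℝ) ≤ (x : ℝ) ^ κ ∧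
    (f a : ℝ) ≤ C * (a : ℝ) ^ τ

/-- `f m ≤ D * m ^ τ * (log m) ^ γ` for all `m ≥ 2`, with constants `D` and `γ`. -/
def PolylogLE (f : ℕ → ℕ) (τ : ℝ) : Prop :=
  ∃ D γ : ℝ, ∀ m : ℕ, 2 ≤ m → (f m : ℝ) ≤ D * (m : ℝ) ^ τ * (Real.log m) ^ γ

/-- `f m ≤ m ^ τ * exp (C * (log m) ^ ε)` for all `m ≥ 2`, with a constant `C`. -/
def StretchedLE (f : ℕ → ℕ) (τ ε : ℝ) : Prop :=
  ∃ C : ℝ, ∀ m : ℕ, 2 ≤ m → (f m : ℝ) ≤ (m : ℝ) ^ τ * Real.exp (C * (Real.log m) ^ ε)

end Pool.Agent.K9h26.NL
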