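import Pool.Agent.W956.KF.Growth

set_option autoImplicit false
set_option linter.unusedSectionVars false

/-!
# Strassen's recursion in which the linear maps are evaluated by fast matrix multiplication
-/

namespace Pool.Agent.K9h26.NL

open Finset Pool.Agent.H522R2 Pool.Agent.H522R2.Circuit Pool.Agent.W956.KF
  Pool.Agent.H88R3.MM

variable {K : Type} [Field K]

section rect

variable {R : Type} [CommRing R] [Algebra K R]

/-- the product of a matrix with `o` row blocks and one column block and a matrix with `q` column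
blocks -/
theorem cost_blocks {ν o q : Type} [Fintype ν] [Fintype o] [Fintype q] {s : ℕ}
    (hν : CostMM K ν s) {T : Set R} (hT : ∀ c : K, algebraMap K R c ∈ T)
    (A : Matrix (o × ν) ν R) (B : Matrix ν (q × ν) R) (hA : ∀ i j, A i j ∈ T)
    (hB : ∀ i j, B i j ∈ T) :
    Cost T {x | ∃ i j, x = (A * B) i j} (Fintype.card o * Fintype.card q * s) := by
  have h1 : Cost T (⋃ t : o × q, {x | ∃ i j, x =
      ((A.submatrix (fun i => (t.1, i)) id) * (B.submatrix id (fun j => (t.2, j)))) i j})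
      (Fintype.card (o × q) * s) :=
    Cost.iUnion fun t => hν R T hT _ _ (fun i j => hA _ _) (fun i j => hB _ _)
  refine h1.mono subset_rfl ?_ (le_of_eq (by rw [Fintype.card_prod]))
  rintro _ ⟨⟨x, i⟩, ⟨y, j⟩, rfl⟩
  refine Set.mem_iUnion.2 ⟨(x, y), i, j, ?_⟩
  rfl

/-- padding -/
theorem exists_embedding_prod {α ν : Type} [Fintype α] [Fintype ν] {o : ℕ}
    (h : Fintype.card α ≤ o * Fintype.card ν) : ∃ e : α → Fin o × ν, Function.Injective e := by
  have h1 : Fintype.card α ≤ Fintype.card (Fin o × ν) := by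
    rwa [Fintype.card_prod, Fintype.card_fin]
  obtain ⟨e⟩ := Function.Embedding.nonempty_of_card_le h1
  exact ⟨e, e.injective⟩

/-- rectangular products, inner dimension at most `|ν|` -/
theorem cost_rect {α δ γ ν : Type} [Fintype α] [Fintype δ] [Fintype γ] [Fintype ν] {s o q : ℕ}
    (hν : CostMM K ν s) {T : Set R} (hT : ∀ c : K, algebraMap K R c ∈ T)
    (hα : Fintype.card α ≤ o * Fintype.card ν) (hδ : Fintype.card δ ≤ Fintype.card ν)
    (hγ : Fintype.card γ ≤ q * Fintype.card ν)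
    (A : Matrix α δ R) (B : Matrix δ γ R) (hA : ∀ i j, A i j ∈ T) (hB : ∀ i j, B i j ∈ T) :
    Cost T {x | ∃ i j, x = (A * B) i j} (o * q * s) := by
  classical
  obtain ⟨e₁, h₁⟩ := exists_embedding_prod hα
  obtain ⟨e₃, h₃⟩ := exists_embedding_prod hγ
  obtain ⟨e₂⟩ := Function.Embedding.nonempty_of_card_le hδ
  have h0 : (0 : R) ∈ T := by simpa using hT 0
  let A' : Matrix (Fin o × ν) ν R := fun x z =>
    Function.extend (fun t : α × δ => (e₁ t.1, e₂ t.2)) (fun t => A t.1 t.2) 0 (x, z)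
  let B' : Matrix ν (Fin q × ν) R := fun z y =>
    Function.extend (fun t : δ × γ => (e₂ t.1, e₃ t.2)) (fun t => B t.1 t.2) 0 (z, y)
  have hiA : Function.Injective (fun t : α × δ => (e₁ t.1, e₂ t.2)) := by
    rintro ⟨a, b⟩ ⟨c, d⟩ h
    simp only [Prod.mk.injEq] at h
    exact Prod.ext (h₁ h.1) (e₂.injective h.2)
  have hiB : Function.Injective (fun t : δ × γ => (e₂ t.1, e₃ t.2)) := by
    rintro ⟨a, b⟩ ⟨c, d⟩ h
    simp only [Prod.mk.injEq] at h
    exact Prod.ext (e₂.injective h.1) (h₃ h.2)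
  have hAe : ∀ i j, A' (e₁ i) (e₂ j) = A i j := fun i j =>
    hiA.extend_apply (fun t => A t.1 t.2) 0 (i, j)
  have hBe : ∀ j k, B' (e₂ j) (e₃ k) = B j k := fun j k =>
    hiB.extend_apply (fun t => B t.1 t.2) 0 (j, k)
  have hA' : ∀ i j, A' i j ∈ T := by
    intro i j
    by_cases hx : ∃ t : α × δ, (e₁ t.1, e₂ t.2) = (i, j)
    · obtain ⟨t, ht⟩ := hx
      have ht1 : e₁ t.1 = i := congrArg Prod.fst ht
      have ht2 : e₂ t.2 = j := congrArg Prod.snd ht
      rw [← ht1, ← ht2, hAe]
      exact hA _ _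
    · have : A' i j = 0 := Function.extend_apply' _ _ _ hx
      rw [this]
      exact h0
  have hB' : ∀ i j, B' i j ∈ T := by
    intro i j
    by_cases hx : ∃ t : δ × γ, (e₂ t.1, e₃ t.2) = (i, j)
    · obtain ⟨t, ht⟩ := hx
      have ht1 : e₂ t.1 = i := congrArg Prod.fst ht
      have ht2 : e₃ t.2 = j := congrArg Prod.snd ht
      rw [← ht1, ← ht2, hBe]
      exact hB _ _
    · have : B' i j = 0 := Function.extend_apply' _ _ _ hx
      rw [this]
      exact h0
  have h := cost_blocks hν hT A' B' hA' hB'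
  refine h.mono subset_rfl ?_ (by simp)
  rintro _ ⟨i, k, rfl⟩
  refine ⟨e₁ i, e₃ k, ?_⟩
  rw [Matrix.mul_apply, Matrix.mul_apply]
  refine Fintype.sum_of_injective e₂ e₂.injective _ _ ?_ ?_
  · intro z hz
    have : A' (e₁ i) z = 0 := Function.extend_apply' _ _ _ (by
      rintro ⟨t, ht⟩
      exact hz ⟨t.2, congrArg Prod.snd ht⟩)
    rw [this, zero_mul]
  · intro j
    rw [hAe, hBe]

/-- rectangular products, inner dimension at most `p |ν|` -/
theorem cost_rect_sum {α δ γ ν : Type} [Fintype α] [Fintype δ] [Fintype γ] [Fintype ν]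
    {s o p q : ℕ}
    (hν : CostMM K ν s) {T : Set R} (hT : ∀ c : K, algebraMap K R c ∈ T)
    (hα : Fintype.card α ≤ o * Fintype.card ν) (hδ : Fintype.card δ ≤ p * Fintype.card ν)
    (hγ : Fintype.card γ ≤ q * Fintype.card ν)
    (A : Matrix α δ R) (B : Matrix δ γ R) (hA : ∀ i j, A i j ∈ T) (hB : ∀ i j, B i j ∈ T) :
    Cost T {x | ∃ i j, x = (A * B) i j}
      (p * (o * q * s) + Fintype.card α * Fintype.card γ * p) := by
  classical
  obtain ⟨e, he⟩ := exists_embedding_prod hδ
  have h0 : (0 : R) ∈ T := by simpa using hT 0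
  -- the blocks of the inner index
  let D : Fin p → Type := fun x => {d : δ // (e d).1 = x}
  have hD : ∀ x, Fintype.card (D x) ≤ Fintype.card ν := fun x =>
    Fintype.card_le_of_injective (fun d : D x => (e d.1).2) (by
      rintro ⟨a, ha⟩ ⟨b, hb⟩ hab
      simp only at hab
      exact Subtype.ext (he (Prod.ext (ha.trans hb.symm) hab)))
  let Ax : ∀ x, Matrix α (D x) R := fun x => A.submatrix id (fun d => d.1)
  let Bx : ∀ x, Matrix (D x) γ R := fun x => B.submatrix (fun d => d.1) id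
  let P : Set R := ⋃ x : Fin p, {z | ∃ i j, z = (Ax x * Bx x) i j}
  have hP : Cost T P (p * (o * q * s)) := by
    have := Cost.iUnion (T := T) (ι := Fin p) (P := fun x => {z | ∃ i j, z = (Ax x * Bx x) i j})
      (s := o * q * s) (fun x => cost_rect hν hT hα (hD x) hγ (Ax x) (Bx x)
        (fun i j => hA _ _) (fun i j => hB _ _))
    simpa using this
  have hQ : Cost (T ∪ P) (Set.range fun t : α × γ => ∑ x : Fin p, (Ax x * Bx x) t.1 t.2)
      (Fintype.card (α × γ) * p) := by
    refine Cost.range fun t => ?_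
    have := Cost.sum (T := T ∪ P) (Or.inl h0) (univ : Finset (Fin p))
      (fun x => (Ax x * Bx x) t.1 t.2) (fun x _ => Or.inr (Set.mem_iUnion.2 ⟨x, t.1, t.2, rfl⟩))
    simpa using this
  refine (hP.comp hQ).mono subset_rfl ?_ (le_of_eq (by rw [Fintype.card_prod]))
  rintro _ ⟨i, j, rfl⟩
  refine Or.inr ⟨(i, j), ?_⟩
  simp only [Matrix.mul_apply]
  rw [← Finset.sum_fiberwise (s := univ) (g := fun d => (e d).1) (f := fun d => A i d * B d j)]
  refine Finset.sum_congr rfl fun x _ => ?_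
  exact (Finset.sum_subtype (univ.filter fun d => (e d).1 = x)
    (p := fun d => (e d).1 = x) (by simp) (fun d => A i d * B d j)).symm

end rect

/-- The recursive step. With a decomposition of the tensor of `a × a` matrix multiplication into
`r` terms one multiplies two `ab × ab` matrices with `r` products of `b × b` matrices and three
products of a constant matrix with a matrix; the latter are evaluated by products of
`a ^ 2 × a ^ 2` matrices. -/
theorem CostMM.step2 {a r : ℕ} (hr : RankLE K a a a r) {ι ν : Type} [Fintype ι] [Fintype ν]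
    {f s ρ β : ℕ} (hι : CostMM K ι f) (hνs : CostMM K ν s) (hν : Fintype.card ν = a ^ 2)
    (hρ : r ≤ ρ * a ^ 2) (hβ : Fintype.card ι ^ 2 ≤ β * a ^ 2) :
    CostMM K (Fin a × ι) (r * f + 3 * (ρ * β * s) + a ^ 2 * Fintype.card ι ^ 2 * ρ) := by
  classical
  obtain ⟨U, V, W, hco⟩ := hr
  intro R _ _ T hT A B hA hB
  have h0 : (0 : R) ∈ T := by simpa using hT 0
  have haa : Fintype.card (Fin a × Fin a) = a ^ 2 := by simp [sq]
  have hιι : Fintype.card (ι × ι) = Fintype.card ι ^ 2 := by rw [Fintype.card_prod, sq]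
  -- first linear forms
  let A' : Fin r → Matrix ι ι R := fun l => Matrix.of fun x y =>
    ∑ t : Fin a × Fin a, algebraMap K R (U l t.1 t.2) * A (t.1, x) (t.2, y)
  let B' : Fin r → Matrix ι ι R := fun l => Matrix.of fun x y =>
    ∑ t : Fin a × Fin a, algebraMap K R (V l t.1 t.2) * B (t.1, x) (t.2, y)
  let PA : Set R := Set.range fun t : Fin r × (ι × ι) => A' t.1 t.2.1 t.2.2
  let PB : Set R := Set.range fun t : Fin r × (ι × ι) => B' t.1 t.2.1 t.2.2
  have hPA : Cost T PA (ρ * β * s) := by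
    refine (cost_rect (α := Fin r) (δ := Fin a × Fin a) (γ := ι × ι) (o := ρ) (q := β) hνs hT
      (by rwa [Fintype.card_fin, hν]) (by rw [haa, hν]) (by rwa [hιι, hν])
      (fun l t => algebraMap K R (U l t.1 t.2)) (fun t e => A (t.1, e.1) (t.2, e.2))
      (fun l t => hT _) (fun t e => hA _ _)).mono subset_rfl ?_ le_rfl
    rintro _ ⟨⟨l, e⟩, rfl⟩
    exact ⟨l, e, rfl⟩
  have hPB : Cost T PB (ρ * β * s) := by
    refine (cost_rect (α := Fin r) (δ := Fin a × Fin a) (γ := ι × ι) (o := ρ) (q := β) hνs hT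
      (by rwa [Fintype.card_fin, hν]) (by rw [haa, hν]) (by rwa [hιι, hν])
      (fun l t => algebraMap K R (V l t.1 t.2)) (fun t e => B (t.1, e.1) (t.2, e.2))
      (fun l t => hT _) (fun t e => hB _ _)).mono subset_rfl ?_ le_rfl
    rintro _ ⟨⟨l, e⟩, rfl⟩
    exact ⟨l, e, rfl⟩
  -- the products
  let PC : Set R := ⋃ l : Fin r, {x | ∃ i j, x = (A' l * B' l) i j}
  have hPC : Cost (T ∪ (PA ∪ PB)) PC (r * f) := by
    have := Cost.iUnion (T := T ∪ (PA ∪ PB)) (ι := Fin r)
      (P := fun l => {x | ∃ i j, x = (A' l * B' l) i j}) (s := f) ?_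
    · simpa using this
    · intro l
      refine hι R _ (fun c => Or.inl (hT c)) (A' l) (B' l) ?_ ?_
      · intro i j
        exact Or.inr (Or.inl ⟨(l, (i, j)), rfl⟩)
      · intro i j
        exact Or.inr (Or.inr ⟨(l, (i, j)), rfl⟩)
  -- the outputs
  have hABC : Cost T ((PA ∪ PB) ∪ PC) ((ρ * β * s + ρ * β * s) + r * f) :=
    (hPA.union hPB).comp hPC
  let PD : Set R := Set.range fun t : (Fin a × Fin a) × (ι × ι) =>
    ∑ l, algebraMap K R (W l t.1.1 t.1.2) * (A' l * B' l) t.2.1 t.2.2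
  have hPD : Cost (T ∪ ((PA ∪ PB) ∪ PC)) PD
      (ρ * (1 * β * s) + a ^ 2 * Fintype.card ι ^ 2 * ρ) := by
    refine (cost_rect_sum (α := Fin a × Fin a) (δ := Fin r) (γ := ι × ι) (o := 1) (p := ρ) (q := β)
      hνs (T := T ∪ ((PA ∪ PB) ∪ PC)) (fun c => Or.inl (hT c))
      (by rw [haa, hν, one_mul]) (by rwa [Fintype.card_fin, hν]) (by rwa [hιι, hν])
      (fun t l => algebraMap K R (W l t.1 t.2)) (fun l e => (A' l * B' l) e.1 e.2)
      (fun l t => Or.inl (hT _)) (fun l e => Or.inr (Or.inr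
        (Set.mem_iUnion.2 ⟨l, e.1, e.2, rfl⟩)))).mono subset_rfl ?_ (le_of_eq ?_)
    · rintro _ ⟨⟨t, e⟩, rfl⟩
      exact ⟨t, e, rfl⟩
    · rw [haa, hιι]
  refine (hABC.comp hPD).mono subset_rfl ?_ (le_of_eq (by ring))
  rintro _ ⟨⟨i, x⟩, ⟨k, b⟩, rfl⟩
  right
  refine ⟨((i, k), (x, b)), ?_⟩
  simp only
  -- the identity
  have e1 : ∀ l, (A' l * B' l) x b = ∑ s : (Fin a × Fin a) × (Fin a × Fin a),
      algebraMap K R (U l s.1.1 s.1.2 * V l s.2.1 s.2.2) *
        ∑ y, A (s.1.1, x) (s.1.2, y) * B (s.2.1, y) (s.2.2, b) := by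
    intro l
    rw [Matrix.mul_apply, Fintype.sum_prod_type (f := fun s : (Fin a × Fin a) × (Fin a × Fin a) =>
      algebraMap K R (U l s.1.1 s.1.2 * V l s.2.1 s.2.2) *
        ∑ y, A (s.1.1, x) (s.1.2, y) * B (s.2.1, y) (s.2.2, b))]
    have e3 : ∀ y, A' l x y * B' l y b = ∑ s1 : Fin a × Fin a, ∑ s2 : Fin a × Fin a,
        (algebraMap K R (U l s1.1 s1.2) * A (s1.1, x) (s1.2, y)) *
          (algebraMap K R (V l s2.1 s2.2) * B (s2.1, y) (s2.2, b)) := by
      intro y
      simp only [A', B', Matrix.of_apply]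
      exact Finset.sum_mul_sum _ _ _ _
    simp only [e3]
    rw [Finset.sum_comm]
    refine Finset.sum_congr rfl fun s1 _ => ?_
    rw [Finset.sum_comm]
    refine Finset.sum_congr rfl fun s2 _ => ?_
    rw [Finset.mul_sum]
    refine Finset.sum_congr rfl fun y _ => ?_
    rw [map_mul]
    ring
  have e2 : ∑ l, algebraMap K R (W l i k) * (A' l * B' l) x b =
      ∑ s : (Fin a × Fin a) × (Fin a × Fin a),
        algebraMap K R (∑ l, U l s.1.1 s.1.2 * V l s.2.1 s.2.2 * W l i k) *
        ∑ y, A (s.1.1, x) (s.1.2, y) * B (s.2.1, y) (s.2.2, b) := by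
    simp only [e1, Finset.mul_sum, map_sum, Finset.sum_mul]
    rw [Finset.sum_comm]
    refine Finset.sum_congr rfl fun s _ => ?_
    rw [Finset.sum_comm]
    refine Finset.sum_congr rfl fun y _ => Finset.sum_congr rfl fun l _ => ?_
    simp only [map_mul]
    ring
  rw [e2]
  simp only [hco]
  rw [Matrix.mul_apply]
  rw [Fintype.sum_prod_type (f := fun s : (Fin a × Fin a) × (Fin a × Fin a) =>
    algebraMap K R (if s.1.1 = i ∧ s.1.2 = s.2.1 ∧ s.2.2 = k then 1 else 0) *
        ∑ y, A (s.1.1, x) (s.1.2, y) * B (s.2.1, y) (s.2.2, b))]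
  simp only [Fintype.sum_prod_type]
  rw [Finset.sum_eq_single i]
  · refine Finset.sum_congr rfl fun j _ => ?_
    rw [Finset.sum_eq_single j, Finset.sum_eq_single k]
    · simp
    · intro k' _ hk
      rw [if_neg (by rintro ⟨_, _, h3⟩; exact hk h3)]
      simp
    · simp
    · intro j' _ hj
      refine Finset.sum_eq_zero fun k' _ => ?_
      rw [if_neg (by rintro ⟨_, h2, _⟩; exact hj h2.symm)]
      simp
    · simp
  · intro i' _ hi
    refine Finset.sum_eq_zero fun j _ => Finset.sum_eq_zero fun j' _ =>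
      Finset.sum_eq_zero fun k' _ => ?_
    rw [if_neg (by rintro ⟨h1, _, _⟩; exact hi h1)]
    simp
  · simp

/-! ### Sizes -/

/-- circuits give `CostMM` -/
theorem costMM_sizeMM (K : Type) [Field K] (m : ℕ) : CostMM K (Fin m) (sizeMM K m) := by
  intro R _ _ T hT A B hA hB
  let φ : MvPolynomial (Vars m) K →+* R :=
    MvPolynomial.eval₂Hom (algebraMap K R) (Sum.elim (fun x => A x.1 x.2) (fun x => B x.1 x.2))
  refine ((cost_MM_sizeMM K m).map φ).mono ?_ ?_ le_rfl
  · rintro _ ⟨_, ⟨v, rfl⟩ | ⟨c, rfl⟩, rfl⟩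
    · rcases v with v | v
      · simpa [φ] using hA v.1 v.2
      · simpa [φ] using hB v.1 v.2
    · simpa [φ] using hT c
  · rintro _ ⟨i, j, rfl⟩
    refine ⟨_, ⟨(i, j), rfl⟩, ?_⟩
    simp only [entryMM, map_sum, map_mul, Matrix.mul_apply]
    refine Finset.sum_congr rfl fun k _ => ?_
    simp [φ]

theorem sizeMM_le_of_costMM {m s : ℕ} (h : CostMM K (Fin m) s) : sizeMM K m ≤ s :=
  sizeMM_le (cost_outMM h)

theorem sizeMM_mono (K : Type) [Field K] {m n : ℕ} (h : m ≤ n) : sizeMM K m ≤ sizeMM K n := by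
  have e : Fin m ⊕ Fin (n - m) ≃ Fin n := Fintype.equivOfCardEq (by
    rw [Fintype.card_sum, Fintype.card_fin, Fintype.card_fin, Fintype.card_fin]
    omega)
  exact sizeMM_le_of_costMM ((costMM_sizeMM K n).reindex e).pad

/-- the outputs are computed at different gates -/
theorem sq_le_sizeMM (K : Type) [Field K] (m : ℕ) : m ^ 2 ≤ sizeMM K m := by
  classical
  obtain ⟨C, hC, hs⟩ := exists_circuit_MM K m
  rw [← hs]
  choose v hv using hC
  have hco : ∀ i j i' j' : Fin m, (entryMM K m i j).coeff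
      (Finsupp.single (Sum.inl (i', i')) 1 + Finsupp.single (Sum.inr (i', j')) 1) =
      if i = i' ∧ j = j' then 1 else 0 := by
    intro i j i' j'
    unfold entryMM
    simp only [MvPolynomial.coeff_sum]
    have hx : ∀ k : Fin m, (MvPolynomial.X (Sum.inl (i, k)) * MvPolynomial.X (Sum.inr (k, j)) :
        MvPolynomial (Vars m) K) = MvPolynomial.monomial
          (Finsupp.single (Sum.inl (i, k)) 1 + Finsupp.single (Sum.inr (k, j)) 1) 1 := by
      intro k
      rw [MvPolynomial.X, MvPolynomial.X, MvPolynomial.monomial_mul, one_mul]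
    simp only [hx, MvPolynomial.coeff_monomial]
    have hiff : ∀ k : Fin m, (Finsupp.single (Sum.inl (i, k) : Vars m) 1 +
        Finsupp.single (Sum.inr (k, j)) 1 =
        Finsupp.single (Sum.inl (i', i')) 1 + Finsupp.single (Sum.inr (i', j')) 1) ↔
        (k = i' ∧ i = i' ∧ j = j') := by
      intro k
      constructor
      · intro h
        have h1 := DFunLike.congr_fun h (Sum.inl (i, k))
        have h2 := DFunLike.congr_fun h (Sum.inr (k, j))
        simp only [Finsupp.add_apply, Finsupp.single_apply] at h1 h2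
        simp only [if_true, reduceCtorEq, if_false, Sum.inl.injEq, Sum.inr.injEq,
          Prod.mk.injEq] at h1 h2
        have h3 : i' = i ∧ i' = k := by
          by_contra hcon
          rw [if_neg hcon] at h1
          omega
        have h4 : i' = k ∧ j' = j := by
          by_contra hcon
          rw [if_neg hcon] at h2
          omega
        exact ⟨h3.2.symm, h3.1.symm, h4.2.symm⟩
      · rintro ⟨rfl, rfl, rfl⟩
        rfl
    simp only [hiff]
    by_cases h : i = i' ∧ j = j'
    · rw [if_pos h, Finset.sum_eq_single i']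
      · rw [if_pos ⟨rfl, h⟩]
      · intro k _ hk
        rw [if_neg (fun h' => hk h'.1)]
      · simp
    · rw [if_neg h]
      exact Finset.sum_eq_zero fun k _ => if_neg fun h' => h h'.2
  have hgate : ∀ t : Fin m × Fin m, (∃ a b, C.gate (v t.1 t.2) = Gate.add a b) ∨
      ∃ a b, C.gate (v t.1 t.2) = Gate.mul a b := by
    rintro ⟨i, j⟩
    have h1 := hv i j
    have h2 := hco i j i j
    rw [if_pos ⟨rfl, rfl⟩, ← h1] at h2
    have hne1 : ∀ x : Vars m, Finsupp.single x 1 ≠
        Finsupp.single (Sum.inl (i, i) : Vars m) 1 + Finsupp.single (Sum.inr (i, j)) 1 := by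
      intro x hx
      have := congrArg Finsupp.degree hx
      simp at this
    have hne0 : (0 : Vars m →₀ ℕ) ≠
        Finsupp.single (Sum.inl (i, i) : Vars m) 1 + Finsupp.single (Sum.inr (i, j)) 1 := by
      intro hx
      have := congrArg Finsupp.degree hx
      simp at this
    cases hg : C.gate (v i j) with
    | var x =>
      exfalso
      have h3 : C.poly (v i j) = MvPolynomial.X x := by rw [poly, hg]
      rw [h3, MvPolynomial.coeff_X, if_neg (hne1 x)] at h2
      exact zero_ne_one h2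
    | const c =>
      exfalso
      have h3 : C.poly (v i j) = MvPolynomial.C c := by rw [poly, hg]
      rw [h3, MvPolynomial.coeff_C, if_neg hne0] at h2
      exact zero_ne_one h2
    | add a b => exact Or.inl ⟨a, b, rfl⟩
    | mul a b => exact Or.inr ⟨a, b, rfl⟩
  have hinj : Function.Injective (fun t : Fin m × Fin m =>
      (⟨v t.1 t.2, hgate t⟩ : {k : Fin C.nodes //
        (∃ i j, C.gate k = Gate.add i j) ∨ ∃ i j, C.gate k = Gate.mul i j})) := by
    rintro ⟨i, j⟩ ⟨i', j'⟩ h
    simp only [Subtype.mk.injEq] at h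
    have h1 := hco i j i j
    rw [if_pos ⟨rfl, rfl⟩, ← hv i j, h, hv i' j', hco] at h1
    have h2 : i' = i ∧ j' = j := by
      by_contra hcon
      rw [if_neg hcon] at h1
      exact zero_ne_one h1
    exact Prod.ext h2.1.symm h2.2.symm
  have h1 := Nat.card_le_card_of_injective _ hinj
  rw [Nat.card_prod, Nat.card_eq_fintype_card, Fintype.card_fin, ← sq] at h1
  exact h1

/-- The total size for `a ^ 3 × a ^ 3` matrices is at most nine times the product of the rank for
`a × a` matrices and the total size for `a ^ 2 × a ^ 2` matrices. -/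
theorem sizeMM_cube (K : Type) [Field K] (a : ℕ) :
    sizeMM K (a ^ 3) ≤ 9 * trank K a a a * sizeMM K (a ^ 2) := by
  rcases Nat.eq_zero_or_pos a with rfl | ha
  · simp [sizeMM_zero]
  set r := trank K a a a with hr0
  set s := sizeMM K (a ^ 2) with hs0
  have har : a ^ 2 ≤ r := sq_le_trank K a
  have has : a ^ 4 ≤ s := by
    have := sq_le_sizeMM K (a ^ 2)
    calc a ^ 4 = (a ^ 2) ^ 2 := by ring
      _ ≤ s := this
  have ha2 : 0 < a ^ 2 := by positivity
  -- the number of blocks
  set ρ := (r + (a ^ 2 - 1)) / a ^ 2 with hρ0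
  have h1 : r ≤ ρ * a ^ 2 := by
    have := Nat.lt_div_mul_add ha2 (a := r + (a ^ 2 - 1))
    rw [← hρ0] at this
    omega
  have h2 : ρ * a ^ 2 ≤ 2 * r := by
    have := Nat.div_mul_le_self (r + (a ^ 2 - 1)) (a ^ 2)
    rw [← hρ0] at this
    omega
  have hstep := CostMM.step2 (rankLE_trank K a a a) (ι := Fin (a ^ 2)) (ν := Fin (a ^ 2))
    (costMM_sizeMM K (a ^ 2)) (costMM_sizeMM K (a ^ 2)) (by simp) h1 (β := a ^ 2)
    (by rw [Fintype.card_fin, sq (a ^ 2)])
  have e : Fin (a ^ 3) ≃ Fin a × Fin (a ^ 2) := Fintype.equivOfCardEq (by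
    rw [Fintype.card_prod, Fintype.card_fin, Fintype.card_fin, Fintype.card_fin]
    ring)
  refine (sizeMM_le_of_costMM (hstep.reindex e)).trans ?_
  rw [Fintype.card_fin, ← hs0, ← hr0]
  calc r * s + 3 * (ρ * a ^ 2 * s) + a ^ 2 * (a ^ 2) ^ 2 * ρ
      = r * s + 3 * (ρ * a ^ 2 * s) + (ρ * a ^ 2) * a ^ 4 := by ring
    _ ≤ r * s + 3 * (2 * r * s) + (2 * r) * s := by gcongr
    _ = 9 * r * s := by ring

end Pool.Agent.K9h26.NL
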