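import Pool.Agent.K9h26.NL.Rec
import Pool.Agent.K9h26.NL.Step
import Pool.Agent.N590.MS.Fin

set_option autoImplicit false
set_option linter.unusedSectionVars false

/-!
# From the rank and from related measures to the total size
-/

namespace Pool.Agent.K9h26.NL

open Finset Pool.Agent.H522R2 Pool.Agent.H522R2.Circuit Pool.Agent.W956.KF
  Pool.Agent.N590.MS
open Pool.Agent.W956.FF (expMat algebraicIndependent_expMat)

/-- the recursion for sizes -/
theorem sizeMM_step (K : Type) [Field K] (a b : ℕ) (ha : 1 ≤ a) (hab : a ≤ b) :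
    a ^ 4 * sizeMM K (a * b) ≤
      trank K a a a * (a ^ 4 * sizeMM K b + 14 * b ^ 2 * sizeMM K (a ^ 2)) := by
  set r := trank K a a a with hr0
  set s := sizeMM K (a ^ 2) with hs0
  set f := sizeMM K b with hf0
  have har : a ^ 2 ≤ r := sq_le_trank K a
  have has : a ^ 4 ≤ s := by
    have := sq_le_sizeMM K (a ^ 2)
    calc a ^ 4 = (a ^ 2) ^ 2 := by ring
      _ ≤ s := this
  have ha2 : 0 < a ^ 2 := by positivity
  have hab2 : a ^ 2 ≤ b ^ 2 := Nat.pow_le_pow_left hab 2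
  -- the numbers of blocks
  set ρ := (r + (a ^ 2 - 1)) / a ^ 2 with hρ0
  set β := (b ^ 2 + (a ^ 2 - 1)) / a ^ 2 with hβ0
  have h1 : r ≤ ρ * a ^ 2 := by
    have := Nat.lt_div_mul_add ha2 (a := r + (a ^ 2 - 1))
    rw [← hρ0] at this
    omega
  have h2 : ρ * a ^ 2 ≤ 2 * r := by
    have := Nat.div_mul_le_self (r + (a ^ 2 - 1)) (a ^ 2)
    rw [← hρ0] at this
    omega
  have h3 : b ^ 2 ≤ β * a ^ 2 := by
    have := Nat.lt_div_mul_add ha2 (a := b ^ 2 + (a ^ 2 - 1))
    rw [← hβ0] at this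
    omega
  have h4 : β * a ^ 2 ≤ 2 * b ^ 2 := by
    have := Nat.div_mul_le_self (b ^ 2 + (a ^ 2 - 1)) (a ^ 2)
    rw [← hβ0] at this
    omega
  have hstep := CostMM.step2 (rankLE_trank K a a a) (ι := Fin b) (ν := Fin (a ^ 2))
    (costMM_sizeMM K b) (costMM_sizeMM K (a ^ 2)) (by simp) h1 (β := β)
    (by rwa [Fintype.card_fin])
  have e : Fin (a * b) ≃ Fin a × Fin b := Fintype.equivOfCardEq (by
    rw [Fintype.card_prod, Fintype.card_fin, Fintype.card_fin, Fintype.card_fin])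
  have hmain := sizeMM_le_of_costMM (hstep.reindex e)
  rw [Fintype.card_fin, ← hs0, ← hr0, ← hf0] at hmain
  calc a ^ 4 * sizeMM K (a * b)
      ≤ a ^ 4 * (r * f + 3 * (ρ * β * s) + a ^ 2 * b ^ 2 * ρ) := Nat.mul_le_mul_left _ hmain
    _ = a ^ 4 * (r * f) + 3 * ((ρ * a ^ 2) * (β * a ^ 2) * s) + (ρ * a ^ 2) * b ^ 2 * a ^ 4 := by
        ring
    _ ≤ a ^ 4 * (r * f) + 3 * ((2 * r) * (2 * b ^ 2) * s) + (2 * r) * b ^ 2 * s := by gcongr
    _ = r * (a ^ 4 * f + 14 * b ^ 2 * s) := by ring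

/-- the rank -/
theorem polylog_of_trank (K : Type) [Field K] {τ : ℝ} (hτ : 2 ≤ τ)
    (h : OftenLE (fun m => trank K m m m) τ) : PolylogLE (sizeMM K) τ := by
  refine polylog_of_rec (fun m n hmn => sizeMM_mono K hmn) hτ ?_ h
  intro a b ha hab
  have := sizeMM_step K a b ha hab
  exact_mod_cast this

theorem rankLE_of_isAlg {K : Type} [Field K] {m n p : ℕ} {L : Type} [Fintype L]
    {U : L → Matrix (Fin m) (Fin n) K} {V : L → Matrix (Fin n) (Fin p) K}
    {W : L → Matrix (Fin m) (Fin p) K} (h : Pool.Agent.H88R3.MM.IsAlg U V W) :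
    RankLE K m n p (Fintype.card L) := by
  classical
  let e : Fin (Fintype.card L) ≃ L := (Fintype.equivFin L).symm
  refine ⟨fun l => U (e l), fun l => V (e l), fun l => W (e l), fun i i' j j' k k' => ?_⟩
  rw [Equiv.sum_comp e (fun l => U l i j * V l j' k * W l i' k')]
  exact h.coeff i i' j j' k k'

/-- the number of products -/
theorem trank_le_prodMM (K : Type) [Field K] (m : ℕ) : trank K m m m ≤ 2 * prodMM K m := by
  classical
  obtain ⟨C, hC, hs⟩ : ∃ C : Circuit K ((Fin m × Fin m) ⊕ (Fin m × Fin m)), ComputesMM C ∧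
      C.nonscalarCount = prodMM K m := by
    obtain ⟨C, hC, -⟩ := exists_circuit_MM K m
    exact Nat.sInf_mem (s := {s | ∃ C : Circuit K ((Fin m × Fin m) ⊕ (Fin m × Fin m)),
      ComputesMM C ∧ C.nonscalarCount = s}) ⟨C.nonscalarCount, C, hC, rfl⟩
  rw [← hs]
  obtain ⟨W, hW⟩ := Pool.Agent.H88R3.MM.exists_alg C hC
  have hcard : Fintype.card ({g : Fin C.nodes // C.IsNonscalar g} × Bool) =
      2 * C.nonscalarCount := by
    rw [Fintype.card_prod, Fintype.card_bool, Circuit.nonscalarCount, Nat.card_eq_fintype_card,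
      mul_comm]
  rw [← hcard]
  exact trank_le (rankLE_of_isAlg hW)

/-- the number of sums -/
theorem trank_le_three_sumsMM (K : Type) [Field K] [Infinite K] {m : ℕ} (hm : 2 ≤ m) :
    trank K m m m ≤ 3 * sumsMM K m := by
  refine le_three hm ?_
  obtain ⟨C, hC, hs⟩ := exists_sumsMM K m
  rw [← hs, pow_two]
  exact trank_le (rank_of_circuit C hC)

theorem trank_le_three_sumsKnown {m : ℕ} (hm : 2 ≤ m) :
    trank ℂ m m m ≤ 3 * sumsKnown m (expMat m) :=
  le_three hm (trank_le_sumsKnown (expMat m) (algebraicIndependent_expMat m))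

theorem often_of_le {K : Type} [Field K] {g : ℕ → ℕ} {τ : ℝ} (c : ℕ)
    (h : ∀ m : ℕ, 2 ≤ m → trank K m m m ≤ c * g m) (hg : OftenLE g τ) :
    OftenLE (fun m => trank K m m m) τ := by
  refine hg.of_le (c := c) (Nat.cast_nonneg _) ?_
  filter_upwards [Filter.eventually_ge_atTop 2] with m hm
  exact_mod_cast h m hm

/-- stretched growth is inherited by multiples -/
theorem StretchedLE.of_le {f g : ℕ → ℕ} {τ ε : ℝ} (hε : 0 < ε) (c : ℕ)
    (h : ∀ m : ℕ, 2 ≤ m → f m ≤ c * g m) (hg : StretchedLE g τ ε) : StretchedLE f τ ε := by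
  obtain ⟨C, hC⟩ := hg
  have hlog2 : 0 < Real.log 2 := Real.log_pos (by norm_num)
  refine ⟨C + c / (Real.log 2) ^ ε, fun m hm => ?_⟩
  have hm0 : (0 : ℝ) < m := by exact_mod_cast (by omega : 0 < m)
  have hlogm : Real.log 2 ≤ Real.log m := Real.log_le_log (by norm_num) (by exact_mod_cast hm)
  have h1 : (c : ℝ) ≤ Real.exp (c / (Real.log 2) ^ ε * (Real.log m) ^ ε) := by
    have h2 : (Real.log 2) ^ ε ≤ (Real.log m) ^ ε := Real.rpow_le_rpow hlog2.le hlogm hε.le
    have h3 : 0 < (Real.log 2) ^ ε := Real.rpow_pos_of_pos hlog2 _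
    have h4 : (c : ℝ) ≤ c / (Real.log 2) ^ ε * (Real.log m) ^ ε := by
      rw [div_mul_eq_mul_div, le_div_iff₀ h3]
      exact mul_le_mul_of_nonneg_left h2 (Nat.cast_nonneg _)
    exact h4.trans ((Real.add_one_le_exp _).trans' (by linarith))
  have h2 : (f m : ℝ) ≤ c * g m := by exact_mod_cast h m hm
  calc (f m : ℝ) ≤ c * g m := h2
    _ ≤ Real.exp (c / (Real.log 2) ^ ε * (Real.log m) ^ ε) *
        ((m : ℝ) ^ τ * Real.exp (C * (Real.log m) ^ ε)) :=
          mul_le_mul h1 (hC m hm) (Nat.cast_nonneg _) (Real.exp_pos _).le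
    _ = (m : ℝ) ^ τ * (Real.exp (C * (Real.log m) ^ ε) *
        Real.exp (c / (Real.log 2) ^ ε * (Real.log m) ^ ε)) := by ring
    _ = _ := by
        rw [← Real.exp_add]
        congr 2
        ring

/-- A function which is bounded below by the rank and above by the total size, up to constant
factors. -/
theorem transfer {K : Type} [Field K] {g : ℕ → ℕ} (c d : ℕ)
    (h : ∀ m : ℕ, 2 ≤ m → trank K m m m ≤ c * g m)
    (h' : ∀ m : ℕ, 2 ≤ m → g m ≤ d * sizeMM K m) (τ : ℝ) (hτ : 2 ≤ τ) :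
    (OftenLE g τ → PolylogLE (sizeMM K) τ) ∧
      ∀ ε : ℝ, 0 < ε → (StretchedLE g τ ε ↔ StretchedLE (sizeMM K) τ ε) := by
  refine ⟨fun hg => polylog_of_trank K hτ (often_of_le c h hg), fun ε hε => ⟨fun hg => ?_,
    fun hs => hs.of_le hε d h'⟩⟩
  refine stretched_of_rec (R := fun m => trank K m m m) (fun m n hmn => sizeMM_mono K hmn) hτ hε
    ?_ (hg.of_le hε c h)
  intro a b ha hab
  have := sizeMM_step K a b ha hab
  exact_mod_cast this

theorem prodMM_le_sizeMM (K : Type) [Field K] (m : ℕ) : prodMM K m ≤ sizeMM K m := by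
  obtain ⟨C, hC, hs⟩ := exists_circuit_MM K m
  rw [← hs]
  exact (Nat.sInf_le (s := {s | ∃ C : Circuit K ((Fin m × Fin m) ⊕ (Fin m × Fin m)),
    ComputesMM C ∧ C.nonscalarCount = s}) ⟨C, hC, rfl⟩).trans
      (C.nonscalarCount_le_mulCount.trans C.mulCount_le_size)

theorem sizeForm_le_five (m : ℕ) : sizeForm m (expMat m) ≤ 5 * sizeMM ℂ m := by
  have h1 := sizeForm_le_sizeKnown (expMat m)
  have h2 := sizeKnown_le_sizeMM (expMat m)
  have h3 := sq_le_sizeMM ℂ m
  omega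

end Pool.Agent.K9h26.NL
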