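import Pool.Agent.K9h26.NL.Defs

set_option autoImplicit false
set_option linter.unusedSectionVars false

/-!
# The solution of the recursion
-/

namespace Pool.Agent.K9h26.NL

theorem OftenLE.of_le {f g : ℕ → ℕ} {τ : ℝ} {c : ℝ} (hc : 0 ≤ c)
    (h : ∀ᶠ m : ℕ in Filter.atTop, (f m : ℝ) ≤ c * g m) (hg : OftenLE g τ) : OftenLE f τ := by
  obtain ⟨C, κ, x₀, hx⟩ := hg
  obtain ⟨x₁, hx₁⟩ := Filter.eventually_atTop.1 h
  refine ⟨c * C, κ, max x₀ x₁, fun x hxx => ?_⟩
  obtain ⟨a, h1, h2, h3⟩ := hx x (le_trans (le_max_left _ _) hxx)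
  refine ⟨a, h1, h2, (hx₁ a (le_trans (le_trans (le_max_right _ _) hxx) h1)).trans ?_⟩
  rw [mul_assoc]
  exact mul_le_mul_of_nonneg_left h3 hc

theorem oftenLE_of_forall {f : ℕ → ℕ} {τ C : ℝ} (h : ∀ a : ℕ, 1 ≤ a → (f a : ℝ) ≤ C * (a : ℝ) ^ τ) :
    OftenLE f τ :=
  ⟨C, 1, 1, fun x hx => ⟨x, le_rfl, by rw [Real.rpow_one], h x hx⟩⟩

/-- the solution of the recursion -/
theorem solve_rec {s R : ℕ → ℕ} (hs : Monotone s) {τ : ℝ} (hτ : 2 ≤ τ)
    (hstep : ∀ a b : ℕ, 1 ≤ a → a ≤ b →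
      (a : ℝ) ^ 4 * s (a * b) ≤ R a * ((a : ℝ) ^ 4 * s b + 14 * (b : ℝ) ^ 2 * s (a ^ 2)))
    {c ε : ℝ} (hc : 0 ≤ c) (hε : 0 < ε)
    (hR : ∃ C κ : ℝ, ∃ x₀ : ℕ, ∀ x : ℕ, x₀ ≤ x → ∃ a : ℕ, x ≤ a ∧ (a : ℝ) ≤ (x : ℝ) ^ κ ∧
      (R a : ℝ) ≤ C * (a : ℝ) ^ τ * Real.exp (c * (Real.log a) ^ ε)) :
    ∃ D γ θ : ℝ, 0 ≤ D ∧ 0 ≤ γ ∧ 0 ≤ θ ∧ ∀ m : ℕ, 2 ≤ m →
      (s m : ℝ) ≤ D * (m : ℝ) ^ τ * (Real.log m) ^ γ *
        Real.exp (c * θ * (Real.log m) ^ ε) := by
  obtain ⟨C₀, κ₀, x₀, hx⟩ := hR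
  -- normalised constants
  set C : ℝ := max C₀ 1 with hC
  set κ : ℝ := max κ₀ 1 with hκ
  have hC1 : 1 ≤ C := le_max_right _ _
  have hκ1 : 1 ≤ κ := le_max_right _ _
  have hC0 : 0 < C := by linarith
  have hκ0 : 0 < κ := by linarith
  have hx' : ∀ x : ℕ, max x₀ 1 ≤ x → ∃ a : ℕ, x ≤ a ∧ (a : ℝ) ≤ (x : ℝ) ^ κ ∧
      (R a : ℝ) ≤ C * (a : ℝ) ^ τ * Real.exp (c * (Real.log a) ^ ε) := by
    intro x hxx
    obtain ⟨a, h1, h2, h3⟩ := hx x (le_trans (le_max_left _ _) hxx)
    have hx1 : (1 : ℝ) ≤ x := by exact_mod_cast le_trans (le_max_right _ _) hxx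
    refine ⟨a, h1, h2.trans (Real.rpow_le_rpow_of_exponent_le hx1 (le_max_left _ _)),
      h3.trans ?_⟩
    exact mul_le_mul_of_nonneg_right (mul_le_mul_of_nonneg_right (le_max_left _ _)
      (by positivity)) (Real.exp_pos _).le
  set δ : ℝ := 1 / (6 * κ) with hδ
  have hδ0 : 0 < δ := by positivity
  have hδ1 : δ ≤ 1 / 6 := by
    rw [hδ]
    apply one_div_le_one_div_of_le <;> linarith
  have hδκ : δ * κ = 1 / 6 := by
    rw [hδ]
    field_simp
  set q : ℝ := 1 - δ / 2 with hq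
  have hq0 : 0 < q := by linarith
  have hq1 : q < 1 := by linarith
  have hqh : 1 / 2 ≤ q := by linarith
  set Λ : ℝ := 15 * C * 2 ^ τ with hΛ
  have hΛ1 : 1 ≤ Λ := by
    have h2 : (1 : ℝ) ≤ 2 ^ τ := Real.one_le_rpow (by norm_num) (by linarith)
    nlinarith
  have hΛ0 : 0 < Λ := by linarith
  -- the exponent
  obtain ⟨γ, hγ0, hγ⟩ : ∃ γ : ℝ, 0 ≤ γ ∧ Λ * q ^ γ ≤ 1 := by
    refine ⟨Real.log Λ / (-Real.log q), ?_, ?_⟩
    · have := Real.log_neg hq0 hq1
      exact div_nonneg (Real.log_nonneg hΛ1) (by linarith)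
    · have hl := Real.log_neg hq0 hq1
      rw [Real.rpow_def_of_pos hq0]
      have e : Real.log q * (Real.log Λ / (-Real.log q)) = - Real.log Λ := by
        have := hl.ne
        field_simp
      rw [e, Real.exp_neg, Real.exp_log hΛ0]
      exact (mul_inv_cancel₀ hΛ0.ne').le
  -- the constant in the exponential function
  have hqε0 : 0 < q ^ ε := Real.rpow_pos_of_pos hq0 _
  have hqε1 : q ^ ε < 1 := Real.rpow_lt_one hq0.le hq1 hε
  set θ : ℝ := 1 / (1 - q ^ ε) with hθ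
  have hθ0 : 0 ≤ θ := by
    rw [hθ]
    exact div_nonneg zero_le_one (by linarith)
  have hθ1 : 1 + θ * q ^ ε = θ := by
    have : (1 - q ^ ε) ≠ 0 := by linarith
    rw [hθ]
    field_simp
    ring
  -- the threshold
  set L : ℝ := max (max ((2 / δ) * Real.log 2) (12 * κ * Real.log 2))
    (max (Real.log ((max x₀ 2 : ℕ) : ℝ) / δ) (Real.log 8)) with hL
  obtain ⟨M, hM⟩ := exists_nat_gt (Real.exp L)
  have hlog2 : 0 < Real.log 2 := Real.log_pos (by norm_num)
  have hD0' : 0 ≤ s M / (Real.log 2) ^ γ := by positivity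
  refine ⟨s M / (Real.log 2) ^ γ, γ, θ, hD0', hγ0, hθ0, ?_⟩
  set D : ℝ := s M / (Real.log 2) ^ γ with hD
  have hD0 : 0 ≤ D := by positivity
  intro m
  induction m using Nat.strong_induction_on with
  | _ m ih =>
    intro hm2
    have hm0 : (0 : ℝ) < m := by exact_mod_cast (by omega : 0 < m)
    have hm1 : (1 : ℝ) ≤ m := by exact_mod_cast (by omega : 1 ≤ m)
    have hlogm : Real.log 2 ≤ Real.log m :=
      Real.log_le_log (by norm_num) (by exact_mod_cast hm2)
    have hlogm0 : 0 < Real.log m := hlog2.trans_le hlogm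
    rcases le_or_gt m M with hmM | hmM
    · -- small `m`
      have h1 : (s m : ℝ) ≤ s M := by exact_mod_cast hs hmM
      have h2 : (Real.log 2) ^ γ ≤ (Real.log m) ^ γ :=
        Real.rpow_le_rpow hlog2.le hlogm hγ0
      have h3 : (1 : ℝ) ≤ (m : ℝ) ^ τ := Real.one_le_rpow hm1 (by linarith)
      have h4 : 0 < (Real.log 2) ^ γ := Real.rpow_pos_of_pos hlog2 _
      have h5 : (1 : ℝ) ≤ Real.exp (c * θ * (Real.log m) ^ ε) :=
        Real.one_le_exp (by positivity)
      calc (s m : ℝ) ≤ s M := h1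
        _ = D * 1 * (Real.log 2) ^ γ * 1 := by
            rw [hD]
            field_simp
        _ ≤ D * (m : ℝ) ^ τ * (Real.log m) ^ γ * Real.exp (c * θ * (Real.log m) ^ ε) := by
            gcongr
    · -- large `m`
      have hmL : L < Real.log m := by
        rw [Real.lt_log_iff_exp_lt hm0]
        exact hM.trans (by exact_mod_cast hmM)
      have hL1 : (2 / δ) * Real.log 2 < Real.log m :=
        lt_of_le_of_lt (le_trans (le_max_left _ _) (le_max_left _ _)) hmL
      have hL2 : 12 * κ * Real.log 2 < Real.log m :=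
        lt_of_le_of_lt (le_trans (le_max_right _ _) (le_max_left _ _)) hmL
      have hL3 : Real.log ((max x₀ 2 : ℕ) : ℝ) / δ < Real.log m :=
        lt_of_le_of_lt (le_trans (le_max_left _ _) (le_max_right _ _)) hmL
      have hL4 : Real.log 8 < Real.log m :=
        lt_of_le_of_lt (le_trans (le_max_right _ _) (le_max_right _ _)) hmL
      have hm8 : (8 : ℝ) < m := (Real.log_lt_log_iff (by norm_num) hm0).1 hL4
      -- the choice of `x`
      set y : ℝ := (m : ℝ) ^ δ with hy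
      have hy0 : 0 < y := Real.rpow_pos_of_pos hm0 _
      have hlogy : Real.log y = δ * Real.log m := Real.log_rpow hm0 _
      have hyx : ((max x₀ 2 : ℕ) : ℝ) < y := by
        have h0 : (0 : ℝ) < ((max x₀ 2 : ℕ) : ℝ) := by
          exact_mod_cast lt_of_lt_of_le (by norm_num) (le_max_right _ _)
        rw [← Real.log_lt_log_iff h0 hy0, hlogy]
        rw [div_lt_iff₀ hδ0] at hL3
        linarith
      have hy2 : (2 : ℝ) < y := by
        refine lt_of_le_of_lt ?_ hyx
        exact_mod_cast le_max_right _ _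
      set x : ℕ := ⌈y⌉₊ with hxdef
      have hxy : y ≤ x := Nat.le_ceil y
      have hxy2 : (x : ℝ) ≤ 2 * y := by
        have := Nat.ceil_lt_add_one hy0.le
        rw [← hxdef] at this
        linarith
      have hxx₀ : max x₀ 1 ≤ x := by
        have h1 : ((max x₀ 2 : ℕ) : ℝ) < x := hyx.trans_le hxy
        have h2 : max x₀ 2 < x := by exact_mod_cast h1
        exact le_trans (max_le_max_left _ (by norm_num)) h2.le
      obtain ⟨a, hxa, hax, hRa⟩ := hx' x hxx₀
      have hay : y ≤ a := hxy.trans (by exact_mod_cast hxa)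
      have ha2 : (2 : ℝ) < a := hy2.trans_le hay
      have ha0 : (0 : ℝ) < a := by linarith
      have ha1 : 1 ≤ a := by
        have : (1 : ℝ) < a := by linarith
        exact_mod_cast this.le
      have ha2' : 2 < a := by exact_mod_cast ha2
      have hx0 : (0 : ℝ) < x := hy0.trans_le hxy
      -- upper bound for `log a`
      have hloga : Real.log a ≤ (1 / 4) * Real.log m := by
        have h1 : Real.log a ≤ κ * Real.log x := by
          have := Real.log_le_log ha0 hax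
          rwa [Real.log_rpow hx0] at this
        have h2 : Real.log x ≤ Real.log 2 + δ * Real.log m := by
          have := Real.log_le_log hx0 hxy2
          rwa [Real.log_mul (by norm_num) hy0.ne', hlogy] at this
        have h3 : κ * Real.log x ≤ κ * Real.log 2 + (1 / 6) * Real.log m := by
          calc κ * Real.log x ≤ κ * (Real.log 2 + δ * Real.log m) :=
                mul_le_mul_of_nonneg_left h2 hκ0.le
            _ = κ * Real.log 2 + (δ * κ) * Real.log m := by ring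
            _ = _ := by rw [hδκ]
        linarith
      have hloga0 : δ * Real.log m ≤ Real.log a := by
        rw [← hlogy]
        exact Real.log_le_log hy0 hay
      -- the choice of `b`
      set b : ℕ := ⌈(m : ℝ) / a⌉₊ with hb
      have hmab : (m : ℝ) ≤ a * b := by
        have := Nat.le_ceil ((m : ℝ) / a)
        rw [div_le_iff₀ ha0] at this
        linarith
      have hmab' : m ≤ a * b := by exact_mod_cast hmab
      have ham : (a : ℝ) ^ 4 ≤ m := by
        rw [← Real.log_le_log_iff (by positivity) hm0, Real.log_pow]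
        push_cast
        linarith
      have ham1 : (a : ℝ) ≤ m := by
        refine le_trans ?_ ham
        calc (a : ℝ) = a ^ 1 := (pow_one _).symm
          _ ≤ (a : ℝ) ^ 4 := pow_le_pow_right₀ (by linarith) (by norm_num)
      have hbup : (b : ℝ) ≤ 2 * m / a := by
        have h1 := Nat.ceil_lt_add_one (div_nonneg hm0.le ha0.le)
        rw [← hb] at h1
        have h2 : (1 : ℝ) ≤ m / a := by rwa [one_le_div ha0]
        have h3 : 2 * (m : ℝ) / a = m / a + m / a := by ring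
        rw [h3]
        linarith
      have hab2 : (a : ℝ) * b ≤ 2 * m := by
        have := mul_le_mul_of_nonneg_left hbup ha0.le
        calc (a : ℝ) * b ≤ a * (2 * m / a) := this
          _ = 2 * m := by field_simp
      have hblow : (a : ℝ) ^ 2 ≤ b := by
        have h1 : (m : ℝ) / a ≤ b := Nat.le_ceil _
        have h2 : (a : ℝ) ^ 2 ≤ m / a := by
          rw [le_div_iff₀ ha0]
          refine le_trans ?_ ham
          calc (a : ℝ) ^ 2 * a = a ^ 3 := by ring
            _ ≤ (a : ℝ) ^ 4 := pow_le_pow_right₀ (by linarith) (by norm_num)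
        linarith
      have hb0 : (0 : ℝ) < b := lt_of_lt_of_le (by positivity) hblow
      have haab : (a : ℝ) ≤ b := by nlinarith
      have haab' : a ≤ b := by exact_mod_cast haab
      have hbm : b < m := by
        have h1 := Nat.ceil_lt_add_one (div_nonneg hm0.le ha0.le)
        rw [← hb] at h1
        have h2 : (m : ℝ) / a ≤ m / 2 := by gcongr
        have h3 : (b : ℝ) < m := by linarith
        exact_mod_cast h3
      have hlogb : Real.log b ≤ q * Real.log m := by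
        have h1 := Real.log_le_log hb0 hbup
        rw [Real.log_div (by positivity) ha0.ne', Real.log_mul (by norm_num) hm0.ne'] at h1
        have h2 : Real.log 2 ≤ (δ / 2) * Real.log m := by
          have h3 : Real.log 2 = (δ / 2) * ((2 / δ) * Real.log 2) := by
            field_simp
          rw [h3]
          exact mul_le_mul_of_nonneg_left hL1.le (by positivity)
        rw [hq]
        linarith
      have hb2 : 2 ≤ b := by omega
      have hloga2 : Real.log ((a ^ 2 : ℕ) : ℝ) ≤ q * Real.log m := by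
        push_cast
        rw [Real.log_pow]
        push_cast
        have : (1 / 2) * Real.log m ≤ q * Real.log m :=
          mul_le_mul_of_nonneg_right hqh hlogm0.le
        linarith
      have haa2 : a ^ 2 ≤ b := by exact_mod_cast hblow
      have haam : a ^ 2 < m := lt_of_le_of_lt haa2 hbm
      have haa3 : 2 ≤ a ^ 2 := by nlinarith
      have ihb := ih b hbm hb2
      have iha := ih (a ^ 2) haam haa3
      -- bounds for the logarithms
      have hlogb0 : 0 ≤ Real.log b := Real.log_nonneg (by exact_mod_cast (by omega : 1 ≤ b))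
      have hloga20 : 0 ≤ Real.log ((a ^ 2 : ℕ) : ℝ) :=
        Real.log_nonneg (by exact_mod_cast (by omega : 1 ≤ a ^ 2))
      have hgb : (Real.log b) ^ γ ≤ q ^ γ * (Real.log m) ^ γ := by
        rw [← Real.mul_rpow hq0.le hlogm0.le]
        exact Real.rpow_le_rpow hlogb0 hlogb hγ0
      have hga : (Real.log ((a ^ 2 : ℕ) : ℝ)) ^ γ ≤ q ^ γ * (Real.log m) ^ γ := by
        rw [← Real.mul_rpow hq0.le hlogm0.le]
        exact Real.rpow_le_rpow hloga20 hloga2 hγ0
      have heb : Real.exp (c * θ * (Real.log b) ^ ε) ≤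
          Real.exp (c * θ * (q ^ ε * (Real.log m) ^ ε)) := by
        rw [← Real.mul_rpow hq0.le hlogm0.le]
        refine Real.exp_le_exp.2 (mul_le_mul_of_nonneg_left ?_ (by positivity))
        exact Real.rpow_le_rpow hlogb0 hlogb hε.le
      have hea : Real.exp (c * θ * (Real.log ((a ^ 2 : ℕ) : ℝ)) ^ ε) ≤
          Real.exp (c * θ * (q ^ ε * (Real.log m) ^ ε)) := by
        rw [← Real.mul_rpow hq0.le hlogm0.le]
        refine Real.exp_le_exp.2 (mul_le_mul_of_nonneg_left ?_ (by positivity))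
        exact Real.rpow_le_rpow hloga20 hloga2 hε.le
      have hRa' : (R a : ℝ) ≤ C * (a : ℝ) ^ τ * Real.exp (c * (Real.log m) ^ ε) := by
        refine hRa.trans (mul_le_mul_of_nonneg_left ?_ (by positivity))
        refine Real.exp_le_exp.2 (mul_le_mul_of_nonneg_left ?_ hc)
        refine Real.rpow_le_rpow (Real.log_nonneg (by linarith)) ?_ hε.le
        linarith
      set X : ℝ := Real.exp (c * (Real.log m) ^ ε) with hX
      set Y : ℝ := Real.exp (c * θ * (q ^ ε * (Real.log m) ^ ε)) with hY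
      have hX0 : 0 < X := Real.exp_pos _
      have hY0 : 0 < Y := Real.exp_pos _
      have hXY : X * Y = Real.exp (c * θ * (Real.log m) ^ ε) := by
        rw [hX, hY, ← Real.exp_add]
        congr 1
        calc c * (Real.log m) ^ ε + c * θ * (q ^ ε * (Real.log m) ^ ε)
            = c * (1 + θ * q ^ ε) * (Real.log m) ^ ε := by ring
          _ = c * θ * (Real.log m) ^ ε := by rw [hθ1]
      set G : ℝ := q ^ γ * (Real.log m) ^ γ with hG
      have hG0 : 0 ≤ G := by positivity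
      have ihb' : (s b : ℝ) ≤ D * (b : ℝ) ^ τ * G * Y := by
        refine ihb.trans ?_
        gcongr
      have iha' : (s (a ^ 2) : ℝ) ≤ D * ((a : ℝ) ^ 2) ^ τ * G * Y := by
        push_cast at iha hga hea
        refine iha.trans ?_
        gcongr
      -- the second term
      have hsec : (b : ℝ) ^ 2 * ((a : ℝ) ^ 2) ^ τ ≤ (a : ℝ) ^ 4 * (b : ℝ) ^ τ := by
        have h1 : ((a : ℝ) ^ 2) ^ τ = (a : ℝ) ^ 4 * ((a : ℝ) ^ 2) ^ (τ - 2) := by
          have : ((a : ℝ) ^ 2) ^ τ = ((a : ℝ) ^ 2) ^ (2 : ℝ) * ((a : ℝ) ^ 2) ^ (τ - 2) := by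
            rw [← Real.rpow_add (by positivity)]
            congr 1
            ring
          rw [this, Real.rpow_two]
          ring
        have h2 : (b : ℝ) ^ τ = (b : ℝ) ^ 2 * (b : ℝ) ^ (τ - 2) := by
          rw [← Real.rpow_two, ← Real.rpow_add hb0]
          congr 1
          ring
        have h3 : ((a : ℝ) ^ 2) ^ (τ - 2) ≤ (b : ℝ) ^ (τ - 2) :=
          Real.rpow_le_rpow (by positivity) hblow (by linarith)
        rw [h1, h2]
        calc (b : ℝ) ^ 2 * ((a : ℝ) ^ 4 * ((a : ℝ) ^ 2) ^ (τ - 2))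
            = (b : ℝ) ^ 2 * (a : ℝ) ^ 4 * ((a : ℝ) ^ 2) ^ (τ - 2) := by ring
          _ ≤ (b : ℝ) ^ 2 * (a : ℝ) ^ 4 * (b : ℝ) ^ (τ - 2) := by gcongr
          _ = (a : ℝ) ^ 4 * ((b : ℝ) ^ 2 * (b : ℝ) ^ (τ - 2)) := by ring
      have hmain := hstep a b ha1 haab'
      have hsm : (s m : ℝ) ≤ s (a * b) := by exact_mod_cast hs hmab'
      have ha4 : (0 : ℝ) < (a : ℝ) ^ 4 := by positivity
      have habτ : (a : ℝ) ^ τ * (b : ℝ) ^ τ ≤ 2 ^ τ * (m : ℝ) ^ τ := by
        rw [← Real.mul_rpow ha0.le hb0.le, ← Real.mul_rpow (by norm_num) hm0.le]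
        exact Real.rpow_le_rpow (by positivity) hab2 (by linarith)
      have hfin : (a : ℝ) ^ 4 * s m ≤ (a : ℝ) ^ 4 * (D * (m : ℝ) ^ τ * (Real.log m) ^ γ *
          Real.exp (c * θ * (Real.log m) ^ ε)) := by
        rw [← hXY]
        calc (a : ℝ) ^ 4 * s m ≤ (a : ℝ) ^ 4 * s (a * b) := by gcongr
          _ ≤ R a * ((a : ℝ) ^ 4 * s b + 14 * (b : ℝ) ^ 2 * s (a ^ 2)) := hmain
          _ ≤ (C * (a : ℝ) ^ τ * X) * ((a : ℝ) ^ 4 * (D * (b : ℝ) ^ τ * G * Y) +
                14 * (b : ℝ) ^ 2 * (D * ((a : ℝ) ^ 2) ^ τ * G * Y)) := by gcongr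
          _ = (C * (a : ℝ) ^ τ) * D * G * (X * Y) * ((a : ℝ) ^ 4 * (b : ℝ) ^ τ +
                14 * ((b : ℝ) ^ 2 * ((a : ℝ) ^ 2) ^ τ)) := by ring
          _ ≤ (C * (a : ℝ) ^ τ) * D * G * (X * Y) * ((a : ℝ) ^ 4 * (b : ℝ) ^ τ +
                14 * ((a : ℝ) ^ 4 * (b : ℝ) ^ τ)) := by gcongr
          _ = (a : ℝ) ^ 4 * (15 * C * D * G * (X * Y) * ((a : ℝ) ^ τ * (b : ℝ) ^ τ)) := by ring
          _ ≤ (a : ℝ) ^ 4 * (15 * C * D * G * (X * Y) * (2 ^ τ * (m : ℝ) ^ τ)) := by gcongr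
          _ = (a : ℝ) ^ 4 * ((Λ * q ^ γ) * (D * (m : ℝ) ^ τ * (Real.log m) ^ γ * (X * Y))) := by
              rw [hΛ, hG]
              ring
          _ ≤ (a : ℝ) ^ 4 * (1 * (D * (m : ℝ) ^ τ * (Real.log m) ^ γ * (X * Y))) := by gcongr
          _ = _ := by rw [one_mul]
      exact le_of_mul_le_mul_left hfin ha4

/-- up to powers of the logarithm -/
theorem polylog_of_rec {s R : ℕ → ℕ} (hs : Monotone s) {τ : ℝ} (hτ : 2 ≤ τ)
    (hstep : ∀ a b : ℕ, 1 ≤ a → a ≤ b →
      (a : ℝ) ^ 4 * s (a * b) ≤ R a * ((a : ℝ) ^ 4 * s b + 14 * (b : ℝ) ^ 2 * s (a ^ 2)))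
    (hR : OftenLE R τ) : PolylogLE s τ := by
  obtain ⟨C, κ, x₀, h⟩ := hR
  obtain ⟨D, γ, θ, -, -, -, hD⟩ := solve_rec hs hτ hstep (c := 0) (ε := 1) le_rfl one_pos
    ⟨C, κ, x₀, fun x hx => by
      obtain ⟨a, h1, h2, h3⟩ := h x hx
      exact ⟨a, h1, h2, by simpa using h3⟩⟩
  exact ⟨D, γ, fun m hm => by simpa using hD m hm⟩

theorem rpow_log_le {γ ε : ℝ} (hε : 0 < ε) (hγ : 0 ≤ γ) {L : ℝ} (hL : 0 < L) :
    L ^ γ ≤ Real.exp (γ / ε * L ^ ε) := by
  rw [Real.rpow_def_of_pos hL]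
  refine Real.exp_le_exp.2 ?_
  have h1 : Real.log (L ^ ε) ≤ L ^ ε := (Real.log_le_sub_one_of_pos
    (Real.rpow_pos_of_pos hL _)).trans (by linarith)
  rw [Real.log_rpow hL] at h1
  have h2 : γ / ε * (ε * Real.log L) ≤ γ / ε * L ^ ε :=
    mul_le_mul_of_nonneg_left h1 (by positivity)
  have h3 : γ / ε * (ε * Real.log L) = Real.log L * γ := by
    field_simp
  linarith

/-- up to factors `exp (C * (log m) ^ ε)` -/
theorem stretched_of_rec {s R : ℕ → ℕ} (hs : Monotone s) {τ ε : ℝ} (hτ : 2 ≤ τ) (hε : 0 < ε)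
    (hstep : ∀ a b : ℕ, 1 ≤ a → a ≤ b →
      (a : ℝ) ^ 4 * s (a * b) ≤ R a * ((a : ℝ) ^ 4 * s b + 14 * (b : ℝ) ^ 2 * s (a ^ 2)))
    (hR : StretchedLE R τ ε) : StretchedLE s τ ε := by
  obtain ⟨C, h⟩ := hR
  obtain ⟨D, γ, θ, hD0, hγ0, hθ0, hD⟩ := solve_rec hs hτ hstep (c := max C 0) (ε := ε)
    (le_max_right _ _) hε
    ⟨1, 1, 2, fun x hx => by
      refine ⟨x, le_rfl, by rw [Real.rpow_one], ?_⟩
      have hlog : 0 ≤ Real.log x := Real.log_nonneg (by exact_mod_cast (by omega : 1 ≤ x))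
      rw [one_mul]
      refine (h x hx).trans (mul_le_mul_of_nonneg_left ?_ (by positivity))
      refine Real.exp_le_exp.2 (mul_le_mul_of_nonneg_right (le_max_left _ _) (by positivity))⟩
  have hlog2 : 0 < Real.log 2 := Real.log_pos (by norm_num)
  refine ⟨D / (Real.log 2) ^ ε + γ / ε + max C 0 * θ, fun m hm => ?_⟩
  have hm0 : (0 : ℝ) < m := by exact_mod_cast (by omega : 0 < m)
  have hlogm : Real.log 2 ≤ Real.log m := Real.log_le_log (by norm_num) (by exact_mod_cast hm)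
  have hlogm0 : 0 < Real.log m := hlog2.trans_le hlogm
  have h1 : D ≤ Real.exp (D / (Real.log 2) ^ ε * (Real.log m) ^ ε) := by
    have h2 : (Real.log 2) ^ ε ≤ (Real.log m) ^ ε := Real.rpow_le_rpow hlog2.le hlogm hε.le
    have h3 : 0 < (Real.log 2) ^ ε := Real.rpow_pos_of_pos hlog2 _
    have h4 : D ≤ D / (Real.log 2) ^ ε * (Real.log m) ^ ε := by
      rw [div_mul_eq_mul_div, le_div_iff₀ h3]
      exact mul_le_mul_of_nonneg_left h2 hD0
    exact h4.trans ((Real.add_one_le_exp _).trans' (by linarith))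
  calc (s m : ℝ) ≤ D * (m : ℝ) ^ τ * (Real.log m) ^ γ *
        Real.exp (max C 0 * θ * (Real.log m) ^ ε) := hD m hm
    _ ≤ Real.exp (D / (Real.log 2) ^ ε * (Real.log m) ^ ε) * (m : ℝ) ^ τ *
        Real.exp (γ / ε * (Real.log m) ^ ε) *
        Real.exp (max C 0 * θ * (Real.log m) ^ ε) := by
          have := rpow_log_le hε hγ0 hlogm0
          gcongr
    _ = (m : ℝ) ^ τ * (Real.exp (D / (Real.log 2) ^ ε * (Real.log m) ^ ε) *
        Real.exp (γ / ε * (Real.log m) ^ ε) *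
        Real.exp (max C 0 * θ * (Real.log m) ^ ε)) := by ring
    _ = _ := by
        rw [← Real.exp_add, ← Real.exp_add]
        congr 2
        ring

end Pool.Agent.K9h26.NL
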